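import Pool.Agent.TH988.WP.Defs

/-!
The model: operators on `K + N + K`, where `N` is a module over polynomials on which the middle part
acts by multiplications and by derivations of order one.
-/

namespace Pool.Agent.TH988.WP

open MvPolynomial

variable (K : Type) [Field K] {k : ℕ}

/-- polynomials in the registers -/
abbrev Sp (K : Type) [Field K] (k : ℕ) := MvPolynomial (Fin (k + 1)) K

/-- the module -/
abbrev Nm (K : Type) [Field K] (k : ℕ) := Sp K k × (ℕ → Sp K k)

/-- the middle operators -/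
abbrev Hm (K : Type) [Field K] (k : ℕ) := Sp K k × (ℕ → Sp K k) × (ℕ → Sp K k)

variable {K} (ρ : ℕ → Fin (k + 1))

/-- the action of the middle operators -/
noncomputable def act (h : Hm K k) : Nm K k →ₗ[K] Nm K k where
  toFun v := (h.1 * v.1, fun l => h.1 * v.2 l + h.2.1 l * pderiv (ρ l) v.1 + h.2.2 l * v.1)
  map_add' v v' := by
    refine Prod.ext (by simp only [Prod.fst_add]; ring) (funext fun l => ?_)
    simp only [Prod.fst_add, Prod.snd_add, Pi.add_apply, map_add]
    ring
  map_smul' c v := by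
    refine Prod.ext (by simp) (funext fun l => ?_)
    simp only [Prod.smul_fst, Prod.smul_snd, Pi.smul_apply, RingHom.id_apply, mul_smul_comm,
      Derivation.map_smul, smul_add]

theorem act_apply (h : Hm K k) (v : Nm K k) : act ρ h v =
    (h.1 * v.1, fun l => h.1 * v.2 l + h.2.1 l * pderiv (ρ l) v.1 + h.2.2 l * v.1) := rfl

/-- product of the middle operators -/
noncomputable def hmul (h h' : Hm K k) : Hm K k :=
  (h.1 * h'.1, (fun l => h.1 * h'.2.1 l + h.2.1 l * h'.1),
    fun l => h.1 * h'.2.2 l + h.2.2 l * h'.1 + h.2.1 l * pderiv (ρ l) h'.1)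

theorem act_hmul (h h' : Hm K k) (v : Nm K k) : act ρ (hmul ρ h h') v = act ρ h (act ρ h' v) := by
  simp only [act_apply, hmul]
  refine Prod.ext (by simp only; ring) (funext fun l => ?_)
  simp only [Derivation.leibniz, smul_eq_mul]
  ring

theorem hmul_assoc (h h' h'' : Hm K k) : hmul ρ (hmul ρ h h') h'' = hmul ρ h (hmul ρ h' h'') := by
  simp only [hmul]
  refine Prod.ext (by simp only; ring) (Prod.ext (funext fun l => ?_) (funext fun l => ?_))
  · simp only; ring
  · simp only [Derivation.leibniz, smul_eq_mul]; ring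

theorem act_add (h h' : Hm K k) (v : Nm K k) : act ρ (h + h') v = act ρ h v + act ρ h' v := by
  simp only [act_apply]
  refine Prod.ext (by simp only [Prod.fst_add]; ring) (funext fun l => ?_)
  simp only [Prod.fst_add, Prod.snd_add, Pi.add_apply]
  ring

theorem act_smul (c : K) (h : Hm K k) (v : Nm K k) : act ρ (c • h) v = c • act ρ h v := by
  simp only [act_apply]
  refine Prod.ext (by simp) (funext fun l => ?_)
  simp only [Prod.smul_fst, Prod.smul_snd, Pi.smul_apply, smul_mul_assoc, smul_add]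

theorem act_zero (v : Nm K k) : act ρ (0 : Hm K k) v = 0 := by
  simp only [act_apply]
  refine Prod.ext (by simp) (funext fun l => ?_)
  simp

theorem hmul_add (h h' h'' : Hm K k) : hmul ρ h (h' + h'') = hmul ρ h h' + hmul ρ h h'' := by
  simp only [hmul]
  refine Prod.ext (by simp only [Prod.fst_add]; ring)
    (Prod.ext (funext fun l => ?_) (funext fun l => ?_))
  · simp only [Prod.fst_add, Prod.snd_add, Pi.add_apply]; ring
  · simp only [Prod.fst_add, Prod.snd_add, Pi.add_apply, map_add]; ring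

theorem add_hmul (h h' h'' : Hm K k) : hmul ρ (h + h') h'' = hmul ρ h h'' + hmul ρ h' h'' := by
  simp only [hmul]
  refine Prod.ext (by simp only [Prod.fst_add]; ring)
    (Prod.ext (funext fun l => ?_) (funext fun l => ?_))
  · simp only [Prod.fst_add, Prod.snd_add, Pi.add_apply]; ring
  · simp only [Prod.fst_add, Prod.snd_add, Pi.add_apply]; ring

theorem hmul_smul (c : K) (h h' : Hm K k) : hmul ρ h (c • h') = c • hmul ρ h h' := by
  simp only [hmul]
  refine Prod.ext (by simp) (Prod.ext (funext fun l => ?_) (funext fun l => ?_))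
  · simp only [Prod.smul_fst, Prod.smul_snd, Pi.smul_apply, mul_smul_comm, smul_add]
  · simp only [Prod.smul_fst, Prod.smul_snd, Pi.smul_apply, mul_smul_comm, smul_add,
      Derivation.map_smul]

theorem smul_hmul (c : K) (h h' : Hm K k) : hmul ρ (c • h) h' = c • hmul ρ h h' := by
  simp only [hmul]
  refine Prod.ext (by simp) (Prod.ext (funext fun l => ?_) (funext fun l => ?_))
  · simp only [Prod.smul_fst, Prod.smul_snd, Pi.smul_apply, smul_mul_assoc, smul_add]
  · simp only [Prod.smul_fst, Prod.smul_snd, Pi.smul_apply, smul_mul_assoc, smul_add]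

variable (K) in
/-- the algebra: functionals, middle operators, vectors, scalars -/
def Bm (_ρ : ℕ → Fin (k + 1)) : Type := (Nm K k →ₗ[K] K) × Hm K k × Nm K k × K

noncomputable instance : AddCommGroup (Bm K ρ) :=
  inferInstanceAs (AddCommGroup ((Nm K k →ₗ[K] K) × Hm K k × Nm K k × K))

noncomputable instance : Module K (Bm K ρ) :=
  inferInstanceAs (Module K ((Nm K k →ₗ[K] K) × Hm K k × Nm K k × K))

noncomputable instance : Mul (Bm K ρ) where
  mul x y := (x.1.comp (act ρ y.2.1), hmul ρ x.2.1 y.2.1, act ρ x.2.1 y.2.2.1, x.1 y.2.2.1)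

theorem mul_def' (x y : Bm K ρ) :
    x * y = (x.1.comp (act ρ y.2.1), hmul ρ x.2.1 y.2.1, act ρ x.2.1 y.2.2.1, x.1 y.2.2.1) := rfl

theorem ext' {x y : Bm K ρ} (h1 : ∀ v, x.1 v = y.1 v) (h2 : x.2.1 = y.2.1)
    (h3 : x.2.2.1 = y.2.2.1) (h4 : x.2.2.2 = y.2.2.2) : x = y :=
  Prod.ext (LinearMap.ext h1) (Prod.ext h2 (Prod.ext h3 h4))

noncomputable instance : NonUnitalRing (Bm K ρ) where
  left_distrib x y z := ext' ρ
    (fun v => by
      change x.1 (act ρ (y.2.1 + z.2.1) v) = x.1 (act ρ y.2.1 v) + x.1 (act ρ z.2.1 v)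
      rw [act_add, map_add])
    (hmul_add ρ _ _ _) (map_add _ _ _) (map_add _ _ _)
  right_distrib x y z := ext' ρ (fun v => rfl) (add_hmul ρ _ _ _) (act_add ρ _ _ _) rfl
  zero_mul x := ext' ρ (fun v => rfl)
    (by
      change hmul ρ 0 x.2.1 = 0
      have := smul_hmul ρ (0 : K) 0 x.2.1
      rwa [zero_smul, zero_smul] at this)
    (act_zero ρ _) rfl
  mul_zero x := ext' ρ
    (fun v => by
      change x.1 (act ρ 0 v) = 0
      rw [act_zero, map_zero])
    (by
      change hmul ρ x.2.1 0 = 0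
      have := hmul_smul ρ (0 : K) x.2.1 0
      rwa [zero_smul, zero_smul] at this)
    (map_zero _) (map_zero _)
  mul_assoc x y z := ext' ρ
    (fun v => by
      change x.1 (act ρ y.2.1 (act ρ z.2.1 v)) = x.1 (act ρ (hmul ρ y.2.1 z.2.1) v)
      rw [act_hmul])
    (hmul_assoc ρ _ _ _) (act_hmul ρ _ _ _) rfl

instance : IsScalarTower K (Bm K ρ) (Bm K ρ) where
  smul_assoc c x y := ext' ρ (fun v => rfl) (smul_hmul ρ _ _ _) (act_smul ρ _ _ _) rfl

instance : SMulCommClass K (Bm K ρ) (Bm K ρ) where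
  smul_comm c x y := ext' ρ
    (fun v => by
      change c • x.1 (act ρ y.2.1 v) = x.1 (act ρ (c • y.2.1) v)
      rw [act_smul, map_smul])
    (hmul_smul ρ _ _ _).symm (map_smul _ _ _).symm (map_smul _ _ _).symm

/-- the middle part of a commutator -/
theorem cm_mid (x y : Bm K ρ) : ∃ w, (cm x y).2.1 = (0, 0, w) := by
  refine ⟨((cm x y).2.1).2.2, ?_⟩
  change hmul ρ x.2.1 y.2.1 - hmul ρ y.2.1 x.2.1 = _
  refine Prod.ext ?_ (Prod.ext (funext fun l => ?_) rfl)
  · simp only [hmul, Prod.fst_sub]; ring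
  · simp only [hmul, Prod.fst_sub, Prod.snd_sub, Pi.sub_apply, Pi.zero_apply]; ring

theorem hmul_mid (w w' : ℕ → Sp K k) : hmul ρ ((0, 0, w) : Hm K k) (0, 0, w') = 0 := by
  simp only [hmul]
  refine Prod.ext (by simp) (Prod.ext (funext fun l => ?_) (funext fun l => ?_)) <;> simp

theorem hcomm_mid (w : ℕ → Sp K k) (h : Hm K k) :
    hmul ρ ((0, 0, w) : Hm K k) h - hmul ρ h (0, 0, w) = 0 := by
  simp only [hmul]
  refine Prod.ext (by simp) (Prod.ext (funext fun l => ?_) (funext fun l => ?_))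
  · simp
  · simp only [Prod.snd_sub, Pi.sub_apply, Prod.snd_zero, Pi.zero_apply, map_zero, zero_mul,
      mul_zero, zero_add, add_zero]
    ring

/-- an element whose middle part is zero is killed from both sides -/
theorem kill (x y z : Bm K ρ) (h : y.2.1 = 0) : x * y * z = 0 := by
  have e : hmul ρ x.2.1 y.2.1 = 0 := by
    rw [h]
    have := hmul_smul ρ (0 : K) x.2.1 0
    rwa [zero_smul, zero_smul] at this
  refine ext' ρ (fun v => ?_) ?_ ?_ ?_
  · change x.1 (act ρ y.2.1 (act ρ z.2.1 v)) = 0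
    rw [h, act_zero, map_zero]
  · change hmul ρ (hmul ρ x.2.1 y.2.1) z.2.1 = 0
    rw [e]
    have := smul_hmul ρ (0 : K) 0 z.2.1
    rwa [zero_smul, zero_smul] at this
  · change act ρ (hmul ρ x.2.1 y.2.1) z.2.2.1 = 0
    rw [e, act_zero]
  · change x.1 (act ρ y.2.1 z.2.2.1) = 0
    rw [h, act_zero, map_zero]

theorem sat1 : Sat K (Bm K ρ) (W1 K) := by
  intro b
  unfold W1
  simp only [map_mul, ev_cm, ev_var]
  obtain ⟨w, hw⟩ := cm_mid ρ (b 1) (b 2)
  obtain ⟨w', hw'⟩ := cm_mid ρ (b 3) (b 4)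
  rw [mul_assoc (b 0)]
  apply kill
  change hmul ρ _ _ = 0
  rw [hw, hw', hmul_mid]

theorem sat2 : Sat K (Bm K ρ) (W2 K) := by
  intro b
  unfold W2
  simp only [map_mul, ev_cm, ev_var]
  obtain ⟨w, hw⟩ := cm_mid ρ (b 1) (b 2)
  apply kill
  change hmul ρ (cm (b 1) (b 2)).2.1 (b 3).2.1 - hmul ρ (b 3).2.1 (cm (b 1) (b 2)).2.1 = 0
  rw [hw, hcomm_mid]

end Pool.Agent.TH988.WP
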