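import Mathlib

/-!
Word problems in varieties of (not necessarily unital) associative algebras: definitions.
-/

namespace Pool.Agent.TH988.WP

/-- noncommutative polynomials without constant term in the variables `X` -/
abbrev Poly (K X : Type) [Field K] := MonoidAlgebra K (FreeSemigroup X)

section

variable (K : Type) [Field K]

/-- the monomial of a nonempty word (first letter, remaining letters) with a coefficient -/
noncomputable def mono {X : Type} (c : K) (x : X) (w : List X) : Poly K X :=
  MonoidAlgebra.single ⟨x, w⟩ c

/-- a variable -/
noncomputable def var {X : Type} (x : X) : Poly K X := mono K 1 x []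

/-- the value of a polynomial at elements of an algebra -/
noncomputable def ev {X B : Type} [NonUnitalRing B] [Module K B] [IsScalarTower K B B]
    [SMulCommClass K B B] (b : X → B) : Poly K X →ₙₐ[K] B :=
  MonoidAlgebra.liftMagma K (FreeSemigroup.lift b)

/-- the polynomial is an identity of the algebra -/
def Sat (B : Type) [NonUnitalRing B] [Module K B] [IsScalarTower K B B]
    [SMulCommClass K B B] (p : Poly K ℕ) : Prop :=
  ∀ b : ℕ → B, ev K b p = 0

/-- the commutator -/
noncomputable def cm {A : Type} [NonUnitalRing A] (a b : A) : A := a * b - b * a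

/-- the identity `x[y,z][t,u]v = 0` -/
noncomputable def W1 : Poly K ℕ :=
  var K 0 * cm (var K 1) (var K 2) * cm (var K 3) (var K 4) * var K 5

/-- the identity `x[y,z,t]u = 0` -/
noncomputable def W2 : Poly K ℕ :=
  var K 0 * cm (cm (var K 1) (var K 2)) (var K 3) * var K 4

/-- the variety of all algebras with the identities `I` contains the variety `W` given by
`x[y,z][t,u]v = 0`, `x[y,z,t]u = 0` -/
def ContainsW (I : Set (Poly K ℕ)) : Prop :=
  ∀ (B : Type) [NonUnitalRing B] [Module K B] [IsScalarTower K B B] [SMulCommClass K B B],
    Sat K B (W1 K) → Sat K B (W2 K) → ∀ p ∈ I, Sat K B p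

/-- the polynomial `p` is zero in the algebra presented by the generators `Fin n` and the
relations `R` in the variety with the identities `I`: its value is zero for all elements
`b 0, ..., b (n-1)` with the relations `R` of all algebras of the variety -/
def ZeroIn (I : Set (Poly K ℕ)) (n : ℕ) (R : Set (Poly K (Fin n))) (p : Poly K (Fin n)) : Prop :=
  ∀ (B : Type) [NonUnitalRing B] [Module K B] [IsScalarTower K B B] [SMulCommClass K B B],
    (∀ q ∈ I, Sat K B q) → ∀ b : Fin n → B, (∀ r ∈ R, ev K b r = 0) → ev K b p = 0

/-- a constructive field: the elements are coded by natural numbers such that the operations and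
the test for equality are computable -/
structure Coding where
  /-- the element with a given code -/
  num : ℕ → K
  surj : Function.Surjective num
  add : ∃ f : ℕ × ℕ → ℕ, Computable f ∧ ∀ x, num (f x) = num x.1 + num x.2
  mul : ∃ f : ℕ × ℕ → ℕ, Computable f ∧ ∀ x, num (f x) = num x.1 * num x.2
  neg : ∃ f : ℕ → ℕ, Computable f ∧ ∀ x, num (f x) = - num x
  inv : ∃ f : ℕ → ℕ, Computable f ∧ ∀ x, num x ≠ 0 → num (f x) = (num x)⁻¹
  eq : ComputablePred fun x : ℕ × ℕ => num x.1 = num x.2

/-- the polynomial with a given list of coefficients (codes) and words (first letter, rest) -/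
noncomputable def elt (c : ℕ → K) {n : ℕ} (l : List (ℕ × Fin n × List (Fin n))) :
    Poly K (Fin n) :=
  (l.map fun x => mono K (c x.1) x.2.1 x.2.2).sum

/-- the word problem of the algebra presented by `Fin n` and `R` in the variety is decidable -/
def DecidableWP (c : Coding K) (I : Set (Poly K ℕ)) (n : ℕ) (R : Set (Poly K (Fin n))) : Prop :=
  ComputablePred fun l : List (ℕ × Fin n × List (Fin n)) => ZeroIn K I n R (elt K c.num l)

/-- the word problem is decidable in the variety: it is decidable in all algebras which are
finitely presented in the variety -/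
def DecidableIn (c : Coding K) (I : Set (Poly K ℕ)) : Prop :=
  ∀ (n : ℕ) (R : Set (Poly K (Fin n))), R.Finite → DecidableWP K c I n R

end

section

variable {K : Type} [Field K] {X B : Type} [NonUnitalRing B] [Module K B] [IsScalarTower K B B]
    [SMulCommClass K B B] (b : X → B)

theorem ev_mono (c : K) (x : X) (w : List X) :
    ev K b (mono K c x w) = c • w.foldl (fun a y => a * b y) (b x) := by
  unfold ev mono
  simp [MonoidAlgebra.liftMagma_apply_apply]
  rfl

@[simp] theorem ev_var (x : X) : ev K b (var K x) = b x := by
  unfold var
  rw [ev_mono]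
  simp

@[simp] theorem ev_cm (p q : Poly K X) : ev K b (cm p q) = cm (ev K b p) (ev K b q) := by
  unfold cm
  rw [map_sub, map_mul, map_mul]

end

end Pool.Agent.TH988.WP
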