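import Pool.Agent.TH988.WP.Model

/-!
The model as an algebra with the given finite set of generators.
-/

namespace Pool.Agent.TH988.WP

open Pool.Agent.Helper707.Flat Pool.Agent.Helper707.Num

theorem Good.congr {k : ℕ} {P : List Ins} (hP : ∀ i ∈ P, Ok (k + 1) P.length i)
    {B : Type} [NonUnitalRing B] {X y x r X' y' x' r' : ℕ → B} {U U' : B}
    (h : Good k P X y x r U) (hX : ∀ l ≤ P.length, X' l = X l) (hy : ∀ j ≤ k, y' j = y j)
    (hx : ∀ l ≤ P.length, x' l = x l) (hr : ∀ l ≤ P.length, r' l = r l) (hU : U' = U) :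
    Good k P X' y' x' r' U' := by
  have hlt : ∀ {l : ℕ} {i : Ins}, P[l]? = some i → l ≤ P.length := fun {l i} hl =>
    (List.getElem?_eq_some_iff.1 hl).1.le
  refine ⟨fun i hi j hj => ?_, ?_, fun l s t hl => ?_, fun l t hl => ?_, fun l s t t' hl => ?_,
    fun l s t t' hl => ?_, fun l s t t' hl => ?_, fun l s t t' hl j hj hne => ?_⟩
  · rw [hy i hi, hy j hj, h.yy i hi j hj]
  · rw [hX _ le_rfl, h.last]
  · have hok := hP _ (List.mem_of_getElem? hl)
    rw [hX l (hlt hl), hX t hok.2, hy s (Nat.lt_succ_iff.1 hok.1), h.inc l s t hl]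
  · have hok := hP _ (List.mem_of_getElem? hl)
    rw [hX l (hlt hl), hX t hok, h.jmp l t hl]
  · have hok := hP _ (List.mem_of_getElem? hl)
    rw [hX l (hlt hl), hX t hok.2.1, hy s (Nat.lt_succ_iff.1 hok.1), h.dec1 l s t t' hl]
  · have hok := hP _ (List.mem_of_getElem? hl)
    rw [hX l (hlt hl), hX t' hok.2.2, hx l (hlt hl), hr l (hlt hl), h.dec2 l s t t' hl]
  · rw [hr l (hlt hl), hU, h.dec3 l s t t' hl]
  · rw [hr l (hlt hl), hy j hj, h.dec4 l s t t' hl j hj hne]

section

variable (K : Type) [Field K] (k : ℕ) (P : List Ins)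

/-- the values of the generators -/
noncomputable def vg : Gn k P.length → Bm K (rho k P)
  | .X l => vX K k P l
  | .y j => vy K k P j
  | .x l => vx K k P l
  | .r l => vr K k P l
  | .U => vU K k P

/-- the values of the generators -/
noncomputable def bg (i : Fin (ng k P.length)) : Bm K (rho k P) := vg K k P ((eg k P.length).symm i)

variable {K k P}

theorem bgX {l : ℕ} (hl : l ≤ P.length) : bg K k P (gX k P.length l) = vX K k P l := by
  unfold bg gX
  rw [Equiv.symm_apply_apply]
  simp only [vg]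
  rw [Fin.val_ofNat, Nat.mod_eq_of_lt (by omega)]

theorem bgx {l : ℕ} (hl : l ≤ P.length) : bg K k P (gx k P.length l) = vx K k P l := by
  unfold bg gx
  rw [Equiv.symm_apply_apply]
  simp only [vg]
  rw [Fin.val_ofNat, Nat.mod_eq_of_lt (by omega)]

theorem bgr {l : ℕ} (hl : l ≤ P.length) : bg K k P (gr k P.length l) = vr K k P l := by
  unfold bg gr
  rw [Equiv.symm_apply_apply]
  simp only [vg]
  rw [Fin.val_ofNat, Nat.mod_eq_of_lt (by omega)]

theorem bgy {j : ℕ} (hj : j ≤ k) : bg K k P (gy k P.length j) = vy K k P j := by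
  unfold bg gy
  rw [Equiv.symm_apply_apply]
  simp only [vg]
  rw [Fin.val_ofNat, Nat.mod_eq_of_lt (by omega)]

theorem bgU : bg K k P (gU k P.length) = vU K k P := by
  unfold bg gU
  rw [Equiv.symm_apply_apply]
  rfl

theorem good_bg [CharZero K] (hP : ∀ i ∈ P, Ok (k + 1) P.length i) :
    Good k P (fun l => bg K k P (gX k P.length l)) (fun j => bg K k P (gy k P.length j))
      (fun l => bg K k P (gx k P.length l)) (fun l => bg K k P (gr k P.length l))
      (bg K k P (gU k P.length)) :=
  (good_model hP).congr hP (fun _ hl => bgX hl) (fun _ hj => bgy hj) (fun _ hl => bgx hl)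
    (fun _ hl => bgr hl) bgU

/-- the input word is not zero in the model if the computation does not halt -/
theorem word_bg_ne (N : ℕ) (hN : ¬ Halts P (0, sx N 0 0)) :
    List.foldl (fun a b => a * b) (bg K k P (gX k P.length 0))
      (List.replicate N (bg K k P (gy k P.length 0))) * bg K k P (gU k P.length) ≠ 0 := by
  rw [bgX (Nat.zero_le _), bgy (Nat.zero_le _), bgU]
  exact word_ne N hN

end

end Pool.Agent.TH988.WP
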