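import Pool.Agent.TH988.WP.Defs
import Pool.Agent.Helper707.Num

/-!
The presentation of an algebra from a counter program; a halting computation gives zero.
-/

namespace Pool.Agent.TH988.WP

open Function Pool.Agent.Helper707.Flat Pool.Agent.Helper707.Num

/-- generators -/
inductive Gn (k L : ℕ)
  | X (l : Fin (L + 1))
  | y (j : Fin (k + 1))
  | x (l : Fin (L + 1))
  | r (l : Fin (L + 1))
  | U
  deriving Fintype, DecidableEq

/-- the relations in terms of values of the generators -/
structure Good (k : ℕ) (P : List Ins) {B : Type} [NonUnitalRing B]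
    (X y x r : ℕ → B) (U : B) : Prop where
  yy : ∀ i ≤ k, ∀ j ≤ k, y i * y j = y j * y i
  last : X P.length = 0
  inc : ∀ l s t, P[l]? = some (.inc s t) → X l = X t * y s
  jmp : ∀ l t, P[l]? = some (.jmp t) → X l = X t
  dec1 : ∀ l s t t', P[l]? = some (.dec s t t') → X l * y s = X t
  dec2 : ∀ l s t t', P[l]? = some (.dec s t t') → x l * r l = X t' - X l
  dec3 : ∀ l s t t', P[l]? = some (.dec s t t') → r l * U = 0
  dec4 : ∀ l s t t', P[l]? = some (.dec s t t') → ∀ j ≤ k, j ≠ s → r l * y j = y j * r l

/-- the product of powers of the first `k` elements -/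
def mon {A : Type} [Ring A] (y : ℕ → A) (σ : ℕ → ℕ) : ℕ → A
  | 0 => 1
  | k + 1 => y k ^ σ k * mon y σ k

section

variable {A : Type} [Ring A] {y : ℕ → A}

theorem mon_congr {σ τ : ℕ → ℕ} {k : ℕ} (h : ∀ j < k, σ j = τ j) : mon y σ k = mon y τ k := by
  induction k with
  | zero => rfl
  | succ k ih =>
    unfold mon
    rw [h k (Nat.lt_succ_self k), ih fun j hj => h j (Nat.lt_succ_of_lt hj)]

theorem comm_mon {z : A} {σ : ℕ → ℕ} {k : ℕ} (h : ∀ j < k, σ j = 0 ∨ Commute z (y j)) :
    Commute z (mon y σ k) := by
  induction k with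
  | zero => exact Commute.one_right z
  | succ k ih =>
    unfold mon
    refine Commute.mul_right ?_ (ih fun j hj => h j (Nat.lt_succ_of_lt hj))
    rcases h k (Nat.lt_succ_self k) with h0 | h0
    · rw [h0, pow_zero]
      exact Commute.one_right z
    · exact h0.pow_right _

theorem mon_update {σ : ℕ → ℕ} {k s : ℕ} (hs : s < k) (hy : ∀ i < k, ∀ j < k, Commute (y i) (y j)) :
    mon y (update σ s (σ s + 1)) k = y s * mon y σ k := by
  induction k with
  | zero => omega
  | succ k ih =>
    unfold mon
    rcases Nat.lt_succ_iff_lt_or_eq.1 hs with h | rfl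
    · rw [ih h fun i hi j hj => hy i (Nat.lt_succ_of_lt hi) j (Nat.lt_succ_of_lt hj),
        update_of_ne (by omega), ← mul_assoc, ← mul_assoc]
      rw [((hy k (Nat.lt_succ_self k) s hs).pow_left _).eq]
    · rw [update_self, mon_congr (τ := σ) fun j hj => update_of_ne (by omega) _ _, pow_succ',
        mul_assoc]

theorem mon_zero {σ : ℕ → ℕ} {k : ℕ} (h : ∀ j, j ≠ 0 → σ j = 0) :
    mon y σ (k + 1) = y 0 ^ σ 0 := by
  induction k with
  | zero => simp [mon]
  | succ k ih =>
    unfold mon
    rw [ih, h (k + 1) (by omega), pow_zero, one_mul]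

end

/-- the configuration halts -/
def Halts (P : List Ins) (x : ℕ × (ℕ → ℕ)) : Prop := ∃ T, ((step P)^[T] x).1 = P.length

theorem halts_step {P : List Ins} {x : ℕ × (ℕ → ℕ)} : Halts P (step P x) ↔ Halts P x := by
  constructor
  · rintro ⟨T, hT⟩
    exact ⟨T + 1, by rwa [iterate_succ_apply]⟩
  · rintro ⟨T, hT⟩
    cases T with
    | zero =>
      refine ⟨0, ?_⟩
      simp only [iterate_zero, id_eq] at hT ⊢
      have : P[x.1]? = none := by
        rw [List.getElem?_eq_none_iff, hT]
      simp only [step, this]
      exact hT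
    | succ T => exact ⟨T, by rwa [iterate_succ_apply] at hT⟩

section

variable {A : Type} [Ring A] {k : ℕ} {P : List Ins} {X y x r : ℕ → A} {U : A}

theorem step_eq (h : Good k P X y x r U) (hP : ∀ i ∈ P, Ok (k + 1) P.length i)
    (c : ℕ × (ℕ → ℕ)) :
    X c.1 * mon y c.2 (k + 1) * U = X (step P c).1 * mon y (step P c).2 (k + 1) * U := by
  have hy : ∀ i < k + 1, ∀ j < k + 1, Commute (y i) (y j) := fun i hi j hj =>
    h.yy i (by omega) j (by omega)
  obtain ⟨l, σ⟩ := c
  rcases hl : P[l]? with _ | i
  · simp only [step, hl]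
  · have hok := hP i (List.mem_of_getElem? hl)
    cases i with
    | inc s t =>
      simp only [step, hl]
      rw [h.inc l s t hl, mon_update hok.1 hy, mul_assoc (X t)]
    | jmp t =>
      simp only [step, hl]
      rw [h.jmp l t hl]
    | dec s t t' =>
      simp only [step, hl]
      split_ifs with h0
      · have h1 : Commute (r l) (mon y σ (k + 1)) := comm_mon fun j hj => by
          rcases eq_or_ne j s with rfl | hne
          · exact Or.inl h0
          · exact Or.inr (h.dec4 l s t t' hl j (by omega) hne)
        have h2 : (X t' - X l) * mon y σ (k + 1) * U = 0 := by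
          rw [← h.dec2 l s t t' hl, mul_assoc (x l), h1.eq, mul_assoc, mul_assoc,
            h.dec3 l s t t' hl, mul_zero, mul_zero]
        rw [sub_mul, sub_mul, sub_eq_zero] at h2
        exact h2.symm
      · have e : update (update σ s (σ s - 1)) s (update σ s (σ s - 1) s + 1) = σ := by
          rw [update_self, update_idem, Nat.sub_add_cancel (Nat.one_le_iff_ne_zero.2 h0),
            update_eq_self]
        have h1 := mon_update (y := y) (σ := update σ s (σ s - 1)) hok.1 hy
        rw [e] at h1
        simp only
        rw [h1, ← mul_assoc, h.dec1 l s t t' hl]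

theorem zero_of_halts (h : Good k P X y x r U) (hP : ∀ i ∈ P, Ok (k + 1) P.length i)
    (c : ℕ × (ℕ → ℕ)) (hc : Halts P c) : X c.1 * mon y c.2 (k + 1) * U = 0 := by
  obtain ⟨T, hT⟩ := hc
  have key : ∀ T, X c.1 * mon y c.2 (k + 1) * U
      = X ((step P)^[T] c).1 * mon y ((step P)^[T] c).2 (k + 1) * U := by
    intro T
    induction T with
    | zero => rfl
    | succ T ih =>
      rw [iterate_succ_apply', ih]
      exact step_eq h hP _
  rw [key T, hT, h.last, zero_mul, zero_mul]

end

section

variable {K B : Type} [Field K] [NonUnitalRing B] [Module K B] [IsScalarTower K B B]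
  [SMulCommClass K B B] {k : ℕ} {P : List Ins} {X y x r : ℕ → B} {U : B}

theorem Good.unit (h : Good k P X y x r U) :
    Good k P (fun l => (X l : Unitization K B)) (fun l => (y l : Unitization K B))
      (fun l => (x l : Unitization K B)) (fun l => (r l : Unitization K B)) (U : Unitization K B) where
  yy i hi j hj := by
    simp only [← Unitization.inr_mul]
    rw [h.yy i hi j hj]
  last := by
    change ((X P.length : B) : Unitization K B) = 0
    rw [h.last, Unitization.inr_zero]
  inc l s t hl := by
    simp only [← Unitization.inr_mul]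
    rw [h.inc l s t hl]
  jmp l t hl := by
    change ((X l : B) : Unitization K B) = (X t : B)
    rw [h.jmp l t hl]
  dec1 l s t t' hl := by
    simp only [← Unitization.inr_mul]
    rw [h.dec1 l s t t' hl]
  dec2 l s t t' hl := by
    simp only [← Unitization.inr_mul]
    rw [h.dec2 l s t t' hl, Unitization.inr_sub]
  dec3 l s t t' hl := by
    simp only [← Unitization.inr_mul]
    rw [h.dec3 l s t t' hl, Unitization.inr_zero]
  dec4 l s t t' hl j hj hne := by
    simp only [← Unitization.inr_mul]
    rw [h.dec4 l s t t' hl j hj hne]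

theorem foldl_rep (a z : B) (N : ℕ) :
    ((List.foldl (fun a b => a * b) a (List.replicate N z) : B) : Unitization K B)
      = (a : Unitization K B) * (z : Unitization K B) ^ N := by
  induction N generalizing a with
  | zero => simp
  | succ N ih =>
    rw [List.replicate_succ, List.foldl_cons, ih, Unitization.inr_mul, pow_succ', mul_assoc]

/-- the input word is zero if the computation halts -/
theorem word_zero (K : Type) [Field K] [Module K B] [IsScalarTower K B B]
    [SMulCommClass K B B] (h : Good k P X y x r U) (hP : ∀ i ∈ P, Ok (k + 1) P.length i) (N : ℕ)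
    (hN : Halts P (0, sx N 0 0)) :
    List.foldl (fun a b => a * b) (X 0) (List.replicate N (y 0)) * U = 0 := by
  have h1 := zero_of_halts (h.unit (K := K)) hP _ hN
  simp only at h1
  rw [mon_zero (fun j hj => by simp [sx, hj])] at h1
  have h2 : sx N 0 0 0 = N := by simp [sx]
  rw [h2, ← foldl_rep, ← Unitization.inr_mul] at h1
  exact Unitization.inr_injective (R := K) (by rw [h1, Unitization.inr_zero])

end

section

variable (K : Type) [Field K] (k : ℕ) (P : List Ins)

/-- number of generators -/
def ng (k L : ℕ) : ℕ := Fintype.card (Gn k L)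

/-- numbering of the generators -/
noncomputable def eg (k L : ℕ) : Gn k L ≃ Fin (ng k L) := Fintype.equivFin _

/-- the generators with natural numbers as indices -/
noncomputable def gX (k L l : ℕ) : Fin (ng k L) := eg k L (.X (Fin.ofNat (L + 1) l))

/-- the generators with natural numbers as indices -/
noncomputable def gy (k L j : ℕ) : Fin (ng k L) := eg k L (.y (Fin.ofNat (k + 1) j))

/-- the generators with natural numbers as indices -/
noncomputable def gx (k L l : ℕ) : Fin (ng k L) := eg k L (.x (Fin.ofNat (L + 1) l))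

/-- the generators with natural numbers as indices -/
noncomputable def gr (k L l : ℕ) : Fin (ng k L) := eg k L (.r (Fin.ofNat (L + 1) l))

/-- the generators with natural numbers as indices -/
noncomputable def gU (k L : ℕ) : Fin (ng k L) := eg k L .U

/-- relations of an instruction -/
noncomputable def relI (L l : ℕ) : Ins → Set (Poly K (Fin (ng k L)))
  | .inc s t => {var K (gX k L l) - var K (gX k L t) * var K (gy k L s)}
  | .jmp t => {var K (gX k L l) - var K (gX k L t)}
  | .dec s t t' => {var K (gX k L l) * var K (gy k L s) - var K (gX k L t),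
      var K (gx k L l) * var K (gr k L l) - (var K (gX k L t') - var K (gX k L l)),
      var K (gr k L l) * var K (gU k L)} ∪
      ⋃ j : Fin (k + 1), {p | (j : ℕ) ≠ s ∧
        p = var K (gr k L l) * var K (gy k L j) - var K (gy k L j) * var K (gr k L l)}

/-- the relations -/
noncomputable def relR : Set (Poly K (Fin (ng k P.length))) :=
  (⋃ i : Fin (k + 1), ⋃ j : Fin (k + 1),
    {var K (gy k P.length i) * var K (gy k P.length j)
      - var K (gy k P.length j) * var K (gy k P.length i)}) ∪
  ({var K (gX k P.length P.length)} ∪ ⋃ l : Fin P.length, relI K k P.length l P[l])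

theorem relI_finite (L l : ℕ) (i : Ins) : (relI K k L l i).Finite := by
  cases i with
  | inc s t => exact Set.finite_singleton _
  | jmp t => exact Set.finite_singleton _
  | dec s t t' =>
    refine Set.Finite.union (by simp) (Set.finite_iUnion fun j => ?_)
    exact (Set.finite_singleton _).subset fun p hp => hp.2

theorem relR_finite : (relR K k P).Finite := by
  refine Set.Finite.union (Set.finite_iUnion fun i => Set.finite_iUnion fun j =>
    Set.finite_singleton _) (Set.Finite.union (Set.finite_singleton _)
    (Set.finite_iUnion fun l => relI_finite K k _ _ _))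

variable {K k P} {B : Type} [NonUnitalRing B] [Module K B] [IsScalarTower K B B]
  [SMulCommClass K B B] (b : Fin (ng k P.length) → B)

theorem good_of (h : ∀ p ∈ relR K k P, ev K b p = 0) :
    Good k P (fun l => b (gX k P.length l)) (fun j => b (gy k P.length j))
      (fun l => b (gx k P.length l)) (fun l => b (gr k P.length l)) (b (gU k P.length)) := by
  have hI : ∀ l i, P[l]? = some i → ∀ p ∈ relI K k P.length l i, ev K b p = 0 := by
    intro l i hl p hp
    obtain ⟨hlt, he⟩ := List.getElem?_eq_some_iff.1 hl
    refine h p (Or.inr (Or.inr (Set.mem_iUnion.2 ⟨⟨l, hlt⟩, ?_⟩)))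
    have : P[(⟨l, hlt⟩ : Fin P.length)] = i := he
    rw [this]
    exact hp
  refine ⟨fun i hi j hj => ?_, ?_, fun l s t hl => ?_, fun l t hl => ?_, fun l s t t' hl => ?_,
    fun l s t t' hl => ?_, fun l s t t' hl => ?_, fun l s t t' hl j hj hne => ?_⟩
  · have := h _ (Or.inl (Set.mem_iUnion.2 ⟨⟨i, by omega⟩, Set.mem_iUnion.2 ⟨⟨j, by omega⟩, rfl⟩⟩))
    simpa [sub_eq_zero] using this
  · have := h _ (Or.inr (Or.inl rfl))
    simpa using this
  · have := hI l _ hl _ rfl
    simpa [sub_eq_zero] using this
  · have := hI l _ hl _ rfl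
    simpa [sub_eq_zero] using this
  · have := hI l _ hl _ (Or.inl (Or.inl rfl))
    simpa [sub_eq_zero] using this
  · have := hI l _ hl _ (Or.inl (Or.inr (Or.inl rfl)))
    simpa [sub_eq_zero] using this
  · have := hI l _ hl _ (Or.inl (Or.inr (Or.inr rfl)))
    simpa [sub_eq_zero] using this
  · have := hI l _ hl _ (Or.inr (Set.mem_iUnion.2 ⟨⟨j, by omega⟩, hne, rfl⟩))
    simpa [sub_eq_zero] using this

theorem of_good (h : Good k P (fun l => b (gX k P.length l)) (fun j => b (gy k P.length j))
      (fun l => b (gx k P.length l)) (fun l => b (gr k P.length l)) (b (gU k P.length))) :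
    ∀ p ∈ relR K k P, ev K b p = 0 := by
  intro p hp
  rcases hp with hp | hp | hp
  · obtain ⟨i, hp⟩ := Set.mem_iUnion.1 hp
    obtain ⟨j, hp⟩ := Set.mem_iUnion.1 hp
    rw [Set.mem_singleton_iff.1 hp]
    have := h.yy i (by omega) j (by omega)
    simpa [sub_eq_zero] using this
  · rw [Set.mem_singleton_iff.1 hp]
    have := h.last
    simpa using this
  · obtain ⟨l, hp⟩ := Set.mem_iUnion.1 hp
    have hl : P[(l : ℕ)]? = some P[l] := by
      simp
    rcases hi : P[l] with ⟨s, t⟩ | ⟨s, t, t'⟩ | t
    · rw [hi] at hp hl
      have h1 := h.inc l s t hl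
      rw [Set.mem_singleton_iff.1 hp]
      simpa [sub_eq_zero] using h1
    · rw [hi] at hp hl
      rcases hp with (hp | hp | hp) | hp
      · have h1 := h.dec1 l s t t' hl
        rw [hp]
        simpa [sub_eq_zero] using h1
      · have h1 := h.dec2 l s t t' hl
        rw [hp]
        simpa [sub_eq_zero] using h1
      · have h1 := h.dec3 l s t t' hl
        rw [Set.mem_singleton_iff.1 hp]
        simpa [sub_eq_zero] using h1
      · obtain ⟨j, hne, hp⟩ := Set.mem_iUnion.1 hp
        have h1 := h.dec4 l s t t' hl j (by omega) hne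
        rw [hp]
        simpa [sub_eq_zero] using h1
    · rw [hi] at hp hl
      have h1 := h.jmp l t hl
      rw [Set.mem_singleton_iff.1 hp]
      simpa [sub_eq_zero] using h1

end

end Pool.Agent.TH988.WP
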