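import Pool.Agent.TH988.WP.Alg
import Pool.Agent.TH988.WP.Pres

/-!
The values of the generators in the model.
-/

namespace Pool.Agent.TH988.WP

open MvPolynomial Function Pool.Agent.Helper707.Flat Pool.Agent.Helper707.Num

variable (K : Type) [Field K] (k : ℕ) (P : List Ins)

/-- states from exponents -/
def ex {k : ℕ} (s : Fin (k + 1) →₀ ℕ) : ℕ → ℕ := fun j => if h : j < k + 1 then s ⟨j, h⟩ else 0

open Classical in
/-- `0` for halting configurations and `1` for the others -/
noncomputable def fi (l : ℕ) (s : Fin (k + 1) →₀ ℕ) : K := if Halts P (l, ex s) then 0 else 1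

/-- the functional with the given values at the monomials -/
noncomputable def lin (f : (Fin (k + 1) →₀ ℕ) → K) : Sp K k →ₗ[K] K :=
  (basisMonomials (Fin (k + 1)) K).constr K f

variable {K k}

theorem lin_monomial (f : (Fin (k + 1) →₀ ℕ) → K) (s : Fin (k + 1) →₀ ℕ) (c : K) :
    lin K k f (monomial s c) = c * f s := by
  have h1 : monomial s c = c • (basisMonomials (Fin (k + 1)) K) s := by
    rw [coe_basisMonomials, smul_monomial, smul_eq_mul, mul_one]
  unfold lin
  rw [h1, map_smul, Module.Basis.constr_basis, smul_eq_mul]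

theorem lin_ext {f g : Sp K k →ₗ[K] K} (h : ∀ s, f (monomial s 1) = g (monomial s 1)) : f = g := by
  refine (basisMonomials (Fin (k + 1)) K).ext fun s => ?_
  rw [coe_basisMonomials]
  exact h s

variable (K k)

/-- the register of an instruction -/
def rho (l : ℕ) : Fin (k + 1) :=
  match P[l]? with
  | some (.dec s _ _) => Fin.ofNat (k + 1) s
  | _ => 0

/-- the functional of a place of the program -/
noncomputable def Ph (l : ℕ) : Sp K k →ₗ[K] K := lin K k (fi K k P l)

/-- the functional of a test -/
noncomputable def Ps (l : ℕ) : Sp K k →ₗ[K] K :=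
  match P[l]? with
  | some (.dec s _ t') => lin K k fun τ =>
      (fi K k P t' (τ + Finsupp.single (Fin.ofNat (k + 1) s) 1)
        - fi K k P l (τ + Finsupp.single (Fin.ofNat (k + 1) s) 1)) / ((τ (Fin.ofNat (k + 1) s) : K) + 1)
  | _ => 0

section

variable {K k} (ρ : ℕ → Fin (k + 1))

/-- functional -/
noncomputable def eF (f : Nm K k →ₗ[K] K) : Bm K ρ := (f, 0, 0, 0)

/-- middle operator -/
noncomputable def eH (h : Hm K k) : Bm K ρ := (0, h, 0, 0)

/-- vector -/
noncomputable def eV (v : Nm K k) : Bm K ρ := (0, 0, v, 0)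

theorem zero_hmul (h : Hm K k) : hmul ρ 0 h = 0 := by
  have := smul_hmul ρ (0 : K) 0 h
  rwa [zero_smul, zero_smul] at this

theorem hmul_zero (h : Hm K k) : hmul ρ h 0 = 0 := by
  have := hmul_smul ρ (0 : K) h 0
  rwa [zero_smul, zero_smul] at this

theorem FH (f : Nm K k →ₗ[K] K) (h : Hm K k) : eF ρ f * eH ρ h = eF ρ (f.comp (act ρ h)) :=
  ext' ρ (fun v => rfl) (zero_hmul ρ h) (act_zero ρ 0) (map_zero f)

theorem HH (h h' : Hm K k) : eH ρ h * eH ρ h' = eH ρ (hmul ρ h h') :=
  ext' ρ (fun v => rfl) rfl (map_zero _) rfl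

theorem HV (h : Hm K k) (v : Nm K k) : eH ρ h * eV ρ v = eV ρ (act ρ h v) :=
  ext' ρ (fun v => rfl) (hmul_zero ρ h) rfl rfl

theorem FV (f : Nm K k →ₗ[K] K) (v : Nm K k) : eF ρ f * eV ρ v = ((0, 0, 0, f v) : Bm K ρ) :=
  ext' ρ (fun w => by
    change f (act ρ 0 w) = 0
    rw [act_zero, map_zero]) (zero_hmul ρ 0) (act_zero ρ v) rfl

theorem eF_sub (f g : Nm K k →ₗ[K] K) : eF ρ f - eF ρ g = eF ρ (f - g) := by
  refine ext' ρ (fun v => rfl) ?_ ?_ ?_ <;> exact sub_zero _

end

/-- value -/
noncomputable def vX (l : ℕ) : Bm K (rho k P) := eF _ ((Ph K k P l).comp (LinearMap.fst K _ _))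

/-- value -/
noncomputable def vy (j : ℕ) : Bm K (rho k P) := eH _ (X (Fin.ofNat (k + 1) j), 0, 0)

/-- value -/
noncomputable def vx (l : ℕ) : Bm K (rho k P) :=
  eF _ ((Ps K k P l).comp ((LinearMap.proj l).comp (LinearMap.snd K _ _)))

/-- value -/
noncomputable def vr (l : ℕ) : Bm K (rho k P) := eH _ (0, Pi.single l 1, 0)

/-- value -/
noncomputable def vU : Bm K (rho k P) := eV _ (1, 0)

variable {K k P}

theorem ex_add (s : Fin (k + 1) →₀ ℕ) {j : ℕ} (hj : j < k + 1) :
    ex (s + Finsupp.single (Fin.ofNat (k + 1) j) 1) = update (ex s) j (ex s j + 1) := by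
  funext i
  simp only [ex, update_apply]
  by_cases hi : i < k + 1
  · simp only [hi, dif_pos, hj, Finsupp.add_apply]
    by_cases h : i = j
    · subst h
      simp only [if_true]
      congr 1
      have : (Fin.ofNat (k + 1) i : Fin (k + 1)) = ⟨i, hi⟩ := by
        ext
        simp [Nat.mod_eq_of_lt hi]
      rw [this, Finsupp.single_eq_same]
    · rw [if_neg h, Finsupp.single_eq_of_ne, add_zero]
      intro h'
      apply h
      have := congrArg Fin.val h'
      simp [Nat.mod_eq_of_lt hj] at this
      omega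
  · simp only [hi, dif_neg, not_false_eq_true]
    rw [if_neg (by omega)]

theorem ex_apply (s : Fin (k + 1) →₀ ℕ) {j : ℕ} (hj : j < k + 1) :
    ex s j = s (Fin.ofNat (k + 1) j) := by
  have : (Fin.ofNat (k + 1) j : Fin (k + 1)) = ⟨j, hj⟩ := by
    ext
    simp [Nat.mod_eq_of_lt hj]
  rw [this]
  simp [ex, hj]

theorem fi_congr {l l' : ℕ} {s s' : Fin (k + 1) →₀ ℕ}
    (h : step P (l, ex s) = (l', ex s')) : fi K k P l s = fi K k P l' s' := by
  unfold fi
  have h1 : Halts P (l, ex s) ↔ Halts P (l', ex s') := by
    rw [← h, halts_step]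
  by_cases h2 : Halts P (l, ex s)
  · rw [if_pos h2, if_pos (h1.1 h2)]
  · rw [if_neg h2, if_neg fun h3 => h2 (h1.2 h3)]

theorem rho_eq {l s t t' : ℕ} (hl : P[l]? = some (.dec s t t')) :
    rho k P l = Fin.ofNat (k + 1) s := by
  unfold rho
  rw [hl]

theorem ofNat_ne {i j : ℕ} (hi : i < k + 1) (hj : j < k + 1) (h : i ≠ j) :
    (Fin.ofNat (k + 1) i : Fin (k + 1)) ≠ Fin.ofNat (k + 1) j := by
  intro h'
  apply h
  have := congrArg Fin.val h'
  simpa [Nat.mod_eq_of_lt hj, Nat.mod_eq_of_lt hi] using this

theorem X_mul_mono (j : Fin (k + 1)) (τ : Fin (k + 1) →₀ ℕ) :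
    (X j : Sp K k) * monomial τ 1 = monomial (τ + Finsupp.single j 1) 1 := by
  rw [mul_comm, monomial_add_single, pow_one]

theorem good_model [CharZero K] (hP : ∀ i ∈ P, Ok (k + 1) P.length i) :
    Good k P (vX K k P) (vy K k P) (vx K k P) (vr K k P) (vU K k P) := by
  refine ⟨fun i hi j hj => ?_, ?_, fun l s t hl => ?_, fun l t hl => ?_, fun l s t t' hl => ?_,
    fun l s t t' hl => ?_, fun l s t t' hl => ?_, fun l s t t' hl j hj hne => ?_⟩
  · -- the y commute
    unfold vy
    rw [HH, HH]
    congr 1
    simp only [hmul]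
    refine Prod.ext (mul_comm _ _) (Prod.ext (funext fun l => ?_) (funext fun l => ?_)) <;> simp
  · -- last
    unfold vX
    have : Ph K k P P.length = 0 := lin_ext fun s => by
      unfold Ph
      rw [lin_monomial, fi, if_pos ⟨0, rfl⟩, mul_zero]
      rfl
    rw [this]
    rfl
  · -- inc
    have hok := hP _ (List.mem_of_getElem? hl)
    unfold vX vy
    rw [FH]
    congr 1
    have : Ph K k P l = (Ph K k P t).comp (LinearMap.mulLeft K (X (Fin.ofNat (k + 1) s))) :=
      lin_ext fun τ => by
        rw [LinearMap.comp_apply, LinearMap.mulLeft_apply, X_mul_mono]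
        unfold Ph
        rw [lin_monomial, lin_monomial]
        congr 1
        apply fi_congr
        rw [ex_add _ hok.1]
        simp only [step, hl]
    rw [this]
    rfl
  · -- jmp
    unfold vX
    have : Ph K k P l = Ph K k P t := lin_ext fun τ => by
      unfold Ph
      rw [lin_monomial, lin_monomial]
      congr 1
      apply fi_congr
      simp only [step, hl]
    rw [this]
  · -- dec1
    have hok := hP _ (List.mem_of_getElem? hl)
    unfold vX vy
    rw [FH]
    congr 1
    have : (Ph K k P l).comp (LinearMap.mulLeft K (X (Fin.ofNat (k + 1) s))) = Ph K k P t :=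
      lin_ext fun τ => by
        rw [LinearMap.comp_apply, LinearMap.mulLeft_apply, X_mul_mono]
        unfold Ph
        rw [lin_monomial, lin_monomial]
        congr 1
        apply fi_congr
        rw [ex_add _ hok.1]
        simp only [step, hl]
        rw [if_neg (by simp)]
        simp
    rw [← this]
    rfl
  · -- dec2
    have hok := hP _ (List.mem_of_getElem? hl)
    unfold vX vx vr
    rw [FH, eF_sub]
    congr 1
    have key : (Ps K k P l).comp (pderiv (Fin.ofNat (k + 1) s)).toLinearMap
        = Ph K k P t' - Ph K k P l := lin_ext fun τ => by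
      rw [LinearMap.comp_apply]
      change Ps K k P l (pderiv _ (monomial τ 1)) = Ph K k P t' _ - Ph K k P l _
      rw [pderiv_monomial]
      unfold Ps Ph
      rw [hl]
      simp only
      rw [lin_monomial, lin_monomial, lin_monomial]
      by_cases h0 : τ (Fin.ofNat (k + 1) s) = 0
      · rw [h0]
        have h1 : fi K k P l τ = fi K k P t' τ := by
          apply fi_congr
          simp only [step, hl]
          rw [if_pos]
          rw [ex_apply _ hok.1, h0]
        rw [h1]
        simp
      · have e : τ - Finsupp.single (Fin.ofNat (k + 1) s) 1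
            + Finsupp.single (Fin.ofNat (k + 1) s) 1 = τ := by
          ext i
          simp only [Finsupp.add_apply, Finsupp.tsub_apply]
          by_cases hi : i = Fin.ofNat (k + 1) s
          · subst hi
            rw [Finsupp.single_eq_same]
            omega
          · rw [Finsupp.single_eq_of_ne hi]
            omega
        rw [e]
        have e2 : (((τ - Finsupp.single (Fin.ofNat (k + 1) s) 1 : Fin (k + 1) →₀ ℕ)
            (Fin.ofNat (k + 1) s) : ℕ) : K) + 1
            = (τ (Fin.ofNat (k + 1) s) : K) := by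
          rw [Finsupp.tsub_apply, Finsupp.single_eq_same]
          have : ((τ (Fin.ofNat (k + 1) s) - 1 : ℕ) : K) + 1
              = (((τ (Fin.ofNat (k + 1) s) - 1) + 1 : ℕ) : K) := by push_cast; ring
          rw [this, Nat.sub_add_cancel (Nat.one_le_iff_ne_zero.2 h0)]
        rw [e2]
        have h3 : (τ (Fin.ofNat (k + 1) s) : K) ≠ 0 := Nat.cast_ne_zero.2 h0
        field_simp
    have h2 : ∀ v : Nm K k, ((Ps K k P l).comp ((LinearMap.proj l).comp (LinearMap.snd K _ _)))
        (act (rho k P) (0, Pi.single l 1, 0) v) = (Ph K k P t' - Ph K k P l) v.1 := by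
      intro v
      rw [← key, act_apply]
      simp [rho_eq hl]
    exact LinearMap.ext h2
  · -- dec3
    unfold vr vU
    rw [HV, act_apply]
    have : ((0 : Sp K k) * 1, fun l' => (0 : Sp K k) * (0 : ℕ → Sp K k) l'
        + (Pi.single l 1 : ℕ → Sp K k) l' * pderiv (rho k P l') 1 + (0 : ℕ → Sp K k) l' * 1)
        = (0 : Nm K k) := by
      refine Prod.ext (by simp) (funext fun l' => ?_)
      simp
    simp only
    rw [this]
    rfl
  · -- dec4
    have hok := hP _ (List.mem_of_getElem? hl)
    unfold vr vy
    rw [HH, HH]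
    congr 1
    simp only [hmul]
    refine Prod.ext (mul_comm _ _) (Prod.ext (funext fun l' => ?_) (funext fun l' => ?_))
    · simp only [Pi.zero_apply]
      ring
    · by_cases h : l' = l
      · subst h
        have h1 := ofNat_ne (k := k) (i := j) (j := s) (by omega) hok.1 hne
        have h2 := rho_eq (k := k) hl
        have h3 : pderiv (rho k P l') (X (Fin.ofNat (k + 1) j) : Sp K k) = 0 := by
          rw [h2]
          exact pderiv_X_of_ne h1
        simp only [h3, mul_zero, zero_mul, add_zero, Pi.zero_apply]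
      · simp [Pi.single_eq_of_ne h]

/-- powers of the first variable -/
theorem iter_act (ρ : ℕ → Fin (k + 1)) (a : Bm K ρ) (N : ℕ) (h : Hm K k) (v : Nm K k) :
    (List.foldl (fun a b => a * b) a (List.replicate N (eH ρ h))).1 v
      = a.1 ((act ρ h)^[N] v) := by
  induction N generalizing a with
  | zero => rfl
  | succ N ih =>
    rw [List.replicate_succ, List.foldl_cons, ih, iterate_succ_apply']
    rfl

theorem iter_fst (ρ : ℕ → Fin (k + 1)) (N : ℕ) (p : Sp K k) :
    ((act ρ ((p, 0, 0) : Hm K k))^[N] ((1, 0) : Nm K k)).1 = p ^ N := by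
  induction N with
  | zero => simp
  | succ N ih =>
    rw [iterate_succ_apply', act_apply]
    simp only
    rw [ih, pow_succ']

/-- the input word is not zero if the computation does not halt -/
theorem word_ne (N : ℕ) (hN : ¬ Halts P (0, sx N 0 0)) :
    List.foldl (fun a b => a * b) (vX K k P 0) (List.replicate N (vy K k P 0)) * vU K k P ≠ 0 := by
  intro h
  have h1 := congrArg (fun x : Bm K (rho k P) => x.2.2.2) h
  rw [mul_def'] at h1
  unfold vy vU at h1
  change (List.foldl (fun a b => a * b) (vX K k P 0) (List.replicate N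
    (eH (rho k P) (X (Fin.ofNat (k + 1) 0), 0, 0)))).1 ((1, 0) : Nm K k) = 0 at h1
  rw [iter_act] at h1
  change Ph K k P 0 (((act (rho k P) _)^[N] ((1, 0) : Nm K k)).1) = 0 at h1
  rw [iter_fst, X_pow_eq_monomial] at h1
  unfold Ph at h1
  rw [lin_monomial, one_mul, fi, if_neg] at h1
  · exact one_ne_zero h1
  · intro h2
    apply hN
    have : ex (Finsupp.single (Fin.ofNat (k + 1) 0) N) = sx N 0 0 := by
      funext i
      simp only [ex, sx]
      by_cases hi : i = 0
      · subst hi
        simp
      · by_cases hi' : i < k + 1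
        · rw [dif_pos hi', Finsupp.single_eq_of_ne, if_neg hi]
          · split_ifs <;> rfl
          · intro h'
            apply hi
            have := congrArg Fin.val h'
            simpa using this
        · rw [dif_neg hi', if_neg hi]
          split_ifs <;> rfl
    rwa [this] at h2

end Pool.Agent.TH988.WP
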